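import Pool.Agent.H27.G.R_seed8.TH612.GS.Stm2

set_option autoImplicit false

/-! Project GS, A4: the mean square form of CONT. -/

namespace Pool.Agent.TH347.GS

open Complex Filter Topology MeasureTheory Set
open Pool.Agent.TH612.CF Pool.Agent.TH612.GS
open scoped ENNReal

noncomputable section

variable {k : ℕ}

instance sfm (ι : Type) [Fintype ι] (T : ℝ) : SigmaFinite (mP ι T) := by
  unfold mP
  infer_instance

lemma mP_univ (k : ℕ) {T : ℝ} (hT : 0 ≤ T) :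
    mP (Fin k ⊕ Fin k) T univ = ENNReal.ofReal (T ^ (2 * k)) := by
  unfold mP
  rw [Measure.pi_univ]
  simp only [Measure.restrict_apply MeasurableSet.univ, univ_inter, Real.volume_Icc, sub_zero]
  rw [Finset.prod_const, Finset.card_univ, Fintype.card_sum, Fintype.card_fin,
    ENNReal.ofReal_pow hT]
  congr 1
  ring

/-- the weight -/
def wy (y : ℝ) : ℝ := (1 + |y|) ^ (-(2 : ℝ))

lemma wy_cont : Continuous wy := by
  unfold wy
  refine Continuous.rpow_const (by fun_prop) fun y => Or.inl ?_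
  positivity

lemma wy_nonneg (y : ℝ) : 0 ≤ wy y := by
  unfold wy
  positivity

lemma wy_int : ∫⁻ y : ℝ, ENNReal.ofReal (wy y) ≠ ⊤ := by
  have h : Integrable (fun y : ℝ => (1 + ‖y‖) ^ (-(2 : ℝ))) volume := by
    apply integrable_one_add_norm
    rw [Module.finrank_self]
    norm_num
  exact h.lintegral_lt_top.ne

/-- `GM` on the line to the left -/
def Gy (M : ℕ) (γ : Fin k ⊕ Fin k → ℝ) (y : ℝ) : ℂ :=
  GM M γ (-(1 / 4) + I * (y / (Real.log M / 2)))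

lemma zN_cont {X : Type*} [TopologicalSpace X] (M : ℕ) {f : X → ℂ} (hf : Continuous f) :
    Continuous fun x => zN M (f x) := by
  unfold zN
  refine continuous_finsetSum _ fun n hn => ?_
  have hn0 : (n : ℂ) ≠ 0 := by
    have := (Finset.mem_Icc.1 hn).1
    exact_mod_cast (by omega : n ≠ 0)
  exact hf.neg.const_cpow (Or.inl hn0)

lemma im1 (x r : ℝ) : ((x : ℂ) - I * (-(1 / 4) + I * (r : ℂ)) / 2).im = 1 / 8 := by
  have : ((x : ℂ) - I * (-(1 / 4) + I * (r : ℂ)) / 2) =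
      ((x + r / 2 : ℝ) : ℂ) + ((1 / 8 : ℝ) : ℂ) * I := by
    push_cast
    linear_combination (-(r : ℂ) / 2) * Complex.I_mul_I
  rw [this, Complex.add_im, Complex.ofReal_im, Complex.im_ofReal_mul, Complex.I_im]
  norm_num

lemma im2 (x r : ℝ) : ((x : ℂ) + I * (-(1 / 4) + I * (r : ℂ)) / 2).im = -(1 / 8) := by
  have : ((x : ℂ) + I * (-(1 / 4) + I * (r : ℂ)) / 2) =
      ((x - r / 2 : ℝ) : ℂ) + ((-(1 / 8) : ℝ) : ℂ) * I := by
    push_cast
    linear_combination ((r : ℂ) / 2) * Complex.I_mul_I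
  rw [this, Complex.add_im, Complex.ofReal_im, Complex.im_ofReal_mul, Complex.I_im]
  norm_num

lemma Gy_cont (M : ℕ) : Continuous fun q : (Fin k ⊕ Fin k → ℝ) × ℝ => Gy M q.1 q.2 := by
  unfold Gy GM
  refine Continuous.mul ?_ ?_
  · rw [← continuousOn_univ]
    refine FH_cont (c := 1 / 8) isOpen_univ (by norm_num) (fun j => ?_) (fun j => ?_)
      fun q _ j => ?_
    · rw [continuousOn_univ]
      fun_prop
    · rw [continuousOn_univ]
      fun_prop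
    · have e : ((q.2 : ℂ) / ((Real.log M : ℂ) / 2)) = ((q.2 / (Real.log M / 2) : ℝ) : ℂ) := by
        push_cast
        rfl
      rw [e]
      constructor
      · rw [im1]
        norm_num
      · rw [im2]
        norm_num
  · refine continuous_finsetProd _ fun j _ => continuous_finsetProd _ fun l _ => ?_
    refine zN_cont M ?_
    fun_prop

lemma cs (g : ℝ → ℝ) (hg : Measurable g) (hg0 : ∀ y, 0 ≤ g y) :
    ENNReal.ofReal ((∫ y, wy y * g y) ^ 2) ≤ (∫⁻ y, ENNReal.ofReal (wy y)) *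
      ∫⁻ y, ENNReal.ofReal (wy y) * ENNReal.ofReal (g y ^ 2) := by
  have hw : Measurable wy := wy_cont.measurable
  have hn : 0 ≤ ∫ y, wy y * g y := integral_nonneg fun y => mul_nonneg (wy_nonneg y) (hg0 y)
  have h1 : ENNReal.ofReal (∫ y, wy y * g y) ≤
      ∫⁻ y, ENNReal.ofReal (wy y) * ENNReal.ofReal (g y) := by
    have h2 := enorm_integral_le_lintegral_enorm (μ := volume) (fun y => wy y * g y)
    rw [Real.enorm_of_nonneg hn] at h2
    refine h2.trans (le_of_eq (lintegral_congr fun y => ?_))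
    rw [Real.enorm_of_nonneg (mul_nonneg (wy_nonneg y) (hg0 y)), ENNReal.ofReal_mul (wy_nonneg y)]
  set A := ∫⁻ y, ENNReal.ofReal (wy y) with hA
  set B := ∫⁻ y, ENNReal.ofReal (wy y) * ENNReal.ofReal (g y ^ 2) with hB
  have h4 := ENNReal.lintegral_mul_le_Lp_mul_Lq volume Real.HolderConjugate.two_two
    (f := fun y => ENNReal.ofReal (wy y) ^ (1 / 2 : ℝ))
    (g := fun y => ENNReal.ofReal (wy y) ^ (1 / 2 : ℝ) * ENNReal.ofReal (g y))
    (hw.ennreal_ofReal.pow_const _).aemeasurable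
    ((hw.ennreal_ofReal.pow_const _).mul hg.ennreal_ofReal).aemeasurable
  have e1 : ∀ x : ℝ≥0∞, x ^ (1 / 2 : ℝ) * x ^ (1 / 2 : ℝ) = x := by
    intro x
    rw [← ENNReal.rpow_add_of_nonneg _ _ (by norm_num) (by norm_num)]
    norm_num
  have e2 : ∀ x : ℝ≥0∞, (x ^ (1 / 2 : ℝ)) ^ (2 : ℝ) = x := by
    intro x
    rw [← ENNReal.rpow_mul]
    norm_num
  have e3 : ∫⁻ y, ((fun y => ENNReal.ofReal (wy y) ^ (1 / 2 : ℝ)) *
      fun y => ENNReal.ofReal (wy y) ^ (1 / 2 : ℝ) * ENNReal.ofReal (g y)) y =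
      ∫⁻ y, ENNReal.ofReal (wy y) * ENNReal.ofReal (g y) := by
    refine lintegral_congr fun y => ?_
    simp only [Pi.mul_apply]
    rw [← mul_assoc, e1]
  have e4 : ∫⁻ y, (ENNReal.ofReal (wy y) ^ (1 / 2 : ℝ)) ^ (2 : ℝ) = A :=
    lintegral_congr fun y => e2 _
  have e5 : ∫⁻ y, (ENNReal.ofReal (wy y) ^ (1 / 2 : ℝ) * ENNReal.ofReal (g y)) ^ (2 : ℝ) = B := by
    refine lintegral_congr fun y => ?_
    rw [ENNReal.mul_rpow_of_nonneg _ _ (by norm_num), e2, ENNReal.ofReal_pow (hg0 y)]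
    congr 1
    exact ENNReal.rpow_natCast _ 2
  rw [e3, e4, e5] at h4
  rw [ENNReal.ofReal_pow hn]
  calc ENNReal.ofReal (∫ y, wy y * g y) ^ 2 ≤ (A ^ (1 / 2 : ℝ) * B ^ (1 / 2 : ℝ)) ^ 2 :=
        pow_le_pow_left' (h1.trans h4) 2
    _ = (A ^ (1 / 2 : ℝ) * A ^ (1 / 2 : ℝ)) * (B ^ (1 / 2 : ℝ) * B ^ (1 / 2 : ℝ)) := by ring
    _ = A * B := by rw [e1, e1]

theorem t_A4 (hC : S_CONT) (hG : S_GL2) : S_A4 := by
  intro k ψ hψ
  obtain ⟨C, M₀, hC0, hM₀, hC⟩ := hC k ψ hψ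
  obtain ⟨C', hC'0, hG⟩ := hG k
  obtain ⟨W, hW⟩ : ∃ W : ℝ≥0∞, W = ∫⁻ y : ℝ, ENNReal.ofReal (wy y) := ⟨_, rfl⟩
  have hWt : W ≠ ⊤ := by
    rw [hW]
    exact wy_int
  refine ⟨2 * C ^ 2 * (1 + W.toReal ^ 2 * C'), M₀, by positivity, hM₀, ?_⟩
  intro T M hM hT hMT
  have hM1 : 1 ≤ M := by omega
  have hMp : (0 : ℝ) < M := by exact_mod_cast hM1
  have hT0 : (0 : ℝ) ≤ T := by linarith
  have key : ∀ γ : Fin k ⊕ Fin k → ℝ, ENNReal.ofReal (‖SP ψ M γ - GM M γ 0‖ ^ 2) ≤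
      ENNReal.ofReal (2 * C ^ 2 * (M : ℝ) ^ (-(1 / 8) : ℝ)) *
        (1 + W * ∫⁻ y : ℝ, ENNReal.ofReal (wy y) * ENNReal.ofReal (‖Gy M γ y‖ ^ 2)) := by
    intro γ
    have h1 := hC M γ hM
    have h1' : ‖SP ψ M γ - GM M γ 0‖ ≤ C * (M : ℝ) ^ (-(1 / 16) : ℝ) *
        (1 + ∫ y : ℝ, wy y * ‖Gy M γ y‖) := h1
    obtain ⟨J, hJ⟩ : ∃ J : ℝ, J = ∫ y : ℝ, wy y * ‖Gy M γ y‖ := ⟨_, rfl⟩
    rw [← hJ] at h1'
    have hJ0 : 0 ≤ J := by
      rw [hJ]
      exact integral_nonneg fun y => mul_nonneg (wy_nonneg y) (norm_nonneg _)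
    have h2 : ‖SP ψ M γ - GM M γ 0‖ ^ 2 ≤
        2 * C ^ 2 * (M : ℝ) ^ (-(1 / 8) : ℝ) * (1 + J ^ 2) := by
      have h3 := pow_le_pow_left₀ (norm_nonneg _) h1' 2
      have h4 : ((M : ℝ) ^ (-(1 / 16) : ℝ)) ^ 2 = (M : ℝ) ^ (-(1 / 8) : ℝ) := by
        rw [← Real.rpow_natCast, ← Real.rpow_mul hMp.le]
        norm_num
      have h6 : 0 ≤ C ^ 2 * (M : ℝ) ^ (-(1 / 8) : ℝ) := by positivity
      calc ‖SP ψ M γ - GM M γ 0‖ ^ 2 ≤ (C * (M : ℝ) ^ (-(1 / 16) : ℝ) * (1 + J)) ^ 2 := h3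
        _ = C ^ 2 * ((M : ℝ) ^ (-(1 / 16) : ℝ)) ^ 2 * (1 + J) ^ 2 := by ring
        _ = C ^ 2 * (M : ℝ) ^ (-(1 / 8) : ℝ) * (1 + J) ^ 2 := by rw [h4]
        _ ≤ C ^ 2 * (M : ℝ) ^ (-(1 / 8) : ℝ) * (2 * (1 + J ^ 2)) := by
            apply mul_le_mul_of_nonneg_left _ h6
            nlinarith [sq_nonneg (1 - J)]
        _ = _ := by ring
    have hmeas : Measurable fun y : ℝ => ‖Gy M γ y‖ :=
      ((Gy_cont M).comp (Continuous.prodMk_right γ)).norm.measurable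
    have h5 := cs (fun y => ‖Gy M γ y‖) hmeas (fun y => norm_nonneg _)
    rw [← hJ, ← hW] at h5
    calc ENNReal.ofReal (‖SP ψ M γ - GM M γ 0‖ ^ 2) ≤
        ENNReal.ofReal (2 * C ^ 2 * (M : ℝ) ^ (-(1 / 8) : ℝ) * (1 + J ^ 2)) :=
          ENNReal.ofReal_le_ofReal h2
      _ = ENNReal.ofReal (2 * C ^ 2 * (M : ℝ) ^ (-(1 / 8) : ℝ)) * ENNReal.ofReal (1 + J ^ 2) :=
          ENNReal.ofReal_mul (by positivity)
      _ ≤ _ := by
          refine mul_le_mul' le_rfl ?_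
          rw [ENNReal.ofReal_add zero_le_one (sq_nonneg J), ENNReal.ofReal_one]
          exact add_le_add le_rfl h5
  have hF : ∫⁻ γ, (∫⁻ y : ℝ, ENNReal.ofReal (wy y) * ENNReal.ofReal (‖Gy M γ y‖ ^ 2))
      ∂(mP (Fin k ⊕ Fin k) T) ≤ W * ENNReal.ofReal (C' * T ^ (2 * k)) := by
    rw [lintegral_lintegral_swap]
    · calc ∫⁻ y : ℝ, ∫⁻ γ, ENNReal.ofReal (wy y) * ENNReal.ofReal (‖Gy M γ y‖ ^ 2)
            ∂(mP (Fin k ⊕ Fin k) T)
          ≤ ∫⁻ y, ENNReal.ofReal (wy y) * ENNReal.ofReal (C' * T ^ (2 * k)) := by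
            refine lintegral_mono fun y => ?_
            rw [lintegral_const_mul' _ _ ENNReal.ofReal_ne_top]
            refine mul_le_mul' le_rfl ?_
            have h7 := hG T M (y / (Real.log M / 2)) hM1 hMT hT
            refine le_trans (le_of_eq ?_) h7
            refine lintegral_congr fun γ => ?_
            unfold Gy
            push_cast
            rfl
        _ = W * ENNReal.ofReal (C' * T ^ (2 * k)) := by
            rw [lintegral_mul_const' _ _ ENNReal.ofReal_ne_top, ← hW]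
    · refine Measurable.aemeasurable ?_
      exact ((wy_cont.comp continuous_snd).measurable.ennreal_ofReal).mul
        (((Gy_cont M).norm.pow 2).measurable.ennreal_ofReal)
  calc ∫⁻ γ, ENNReal.ofReal (‖SP ψ M γ - GM M γ 0‖ ^ 2) ∂(mP (Fin k ⊕ Fin k) T) ≤
      ∫⁻ γ, ENNReal.ofReal (2 * C ^ 2 * (M : ℝ) ^ (-(1 / 8) : ℝ)) *
        (1 + W * ∫⁻ y : ℝ, ENNReal.ofReal (wy y) * ENNReal.ofReal (‖Gy M γ y‖ ^ 2))
          ∂(mP (Fin k ⊕ Fin k) T) := lintegral_mono key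
    _ = ENNReal.ofReal (2 * C ^ 2 * (M : ℝ) ^ (-(1 / 8) : ℝ)) *
        (mP (Fin k ⊕ Fin k) T univ + W * ∫⁻ γ, (∫⁻ y : ℝ, ENNReal.ofReal (wy y) *
          ENNReal.ofReal (‖Gy M γ y‖ ^ 2)) ∂(mP (Fin k ⊕ Fin k) T)) := by
        rw [lintegral_const_mul' _ _ ENNReal.ofReal_ne_top, lintegral_add_left measurable_const,
          lintegral_const_mul' _ _ hWt, lintegral_const, one_mul]
    _ ≤ ENNReal.ofReal (2 * C ^ 2 * (M : ℝ) ^ (-(1 / 8) : ℝ)) *
        (ENNReal.ofReal (T ^ (2 * k)) + W * (W * ENNReal.ofReal (C' * T ^ (2 * k)))) := by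
        rw [mP_univ k hT0]
        exact mul_le_mul' le_rfl (add_le_add le_rfl (mul_le_mul' le_rfl hF))
    _ = ENNReal.ofReal (2 * C ^ 2 * (1 + W.toReal ^ 2 * C') * T ^ (2 * k) *
        (M : ℝ) ^ (-(1 / 8) : ℝ)) := by
        have hw0 : (0 : ℝ) ≤ W.toReal := ENNReal.toReal_nonneg
        rw [← ENNReal.ofReal_toReal hWt, ← ENNReal.ofReal_mul hw0, ← ENNReal.ofReal_mul hw0,
          ← ENNReal.ofReal_add (by positivity) (by positivity),
          ← ENNReal.ofReal_mul (by positivity), ENNReal.toReal_ofReal hw0]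
        congr 1
        ring

end

end Pool.Agent.TH347.GS
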